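import Pool.Agent.L7h85.GR.Lcl

/-!
# The local limit theorem for closed walks in any abelian group
-/

set_option autoImplicit false

namespace Pool.Agent.L7h85.GR

open Filter Topology Set Real

theorem cw_congr {Q Q' ι : Type*} [AddCommGroup Q] [AddCommGroup Q'] [Fintype ι] {w : ι → Q}
    {w' : ι → Q'} (h : ∀ (n : ℕ) (f : Fin n → ι), ∑ k, w (f k) = 0 ↔ ∑ k, w' (f k) = 0) (n : ℕ) :
    cw w n = cw w' n :=
  Nat.card_congr (Equiv.subtypeEquivRight fun f => h n f)

theorem finrank_model (r : ℕ) (F : Type) [AddCommGroup F] [Finite F] :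
    Module.finrank ℤ ((Fin r → ℤ) × F) = r := by
  set N : Submodule ℤ ((Fin r → ℤ) × F) := LinearMap.ker (LinearMap.fst ℤ (Fin r → ℤ) F) with hN
  have h1 : N ≤ Submodule.torsion ℤ ((Fin r → ℤ) × F) := by
    intro x hx
    have hx1 : x.1 = 0 := hx
    cases nonempty_fintype F
    refine ⟨⟨(Fintype.card F : ℤ), ?_⟩, ?_⟩
    · exact mem_nonZeroDivisors_of_ne_zero (Nat.cast_ne_zero.2 Fintype.card_ne_zero)
    · change (Fintype.card F : ℤ) • x = 0
      refine Prod.ext ?_ ?_
      · rw [Prod.smul_fst, hx1, smul_zero]; rfl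
      · rw [Prod.smul_snd, Nat.cast_smul_eq_nsmul, card_nsmul_eq_zero]; rfl
  rw [← finrank_quotient_eq_of_le_torsion h1]
  have e := (LinearMap.fst ℤ (Fin r → ℤ) F).quotKerEquivOfSurjective LinearMap.fst_surjective
  rw [LinearEquiv.finrank_eq e, Module.finrank_fin_fun]

/-- **The local limit theorem.** -/
theorem lcl {Q ι : Type*} [AddCommGroup Q] [Fintype ι] (w : ι → Q) {τ : ι → ι}
    (hτ : Function.Bijective τ) (hw : ∀ i, w (τ i) = -w i) {i₀ : ι} (h0 : w i₀ = 0) :
    ∃ κ : ℝ, 0 < κ ∧ Tendsto (fun n : ℕ => (cw w n : ℝ) *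
      √n ^ (Module.finrank ℤ (AddSubgroup.closure (range w))) / (Fintype.card ι : ℝ) ^ n)
      atTop (𝓝 κ) := by
  classical
  set G := AddSubgroup.closure (range w) with hG
  let w' : ι → G := fun i => ⟨w i, AddSubgroup.subset_closure (mem_range_self i)⟩
  have hgen : AddSubgroup.closure (range w') = ⊤ := by
    have h1 : range w' = (Subtype.val : G → Q) ⁻¹' range w := by
      ext x
      constructor
      · rintro ⟨i, rfl⟩; exact ⟨i, rfl⟩
      · rintro ⟨i, hi⟩; exact ⟨i, Subtype.ext hi⟩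
    rw [h1]
    exact AddSubgroup.closure_closure_coe_preimage
  have hfg : AddGroup.FG G := by
    rw [AddGroup.fg_iff]
    exact ⟨range w', hgen, finite_range w'⟩
  obtain ⟨r, I, hI, p, hp, e, ⟨f⟩⟩ := AddCommGroup.equiv_free_prod_directSum_zmod G
  let F := DirectSum I fun i => ZMod (p i ^ e i)
  have hne : ∀ i, NeZero (p i ^ e i) := fun i => ⟨pow_ne_zero _ (hp i).ne_zero⟩
  have hFf : Finite F := Finite.of_equiv _ (DFinsupp.equivFunOnFintype (ι := I)).symm
  have hFt : Fintype F := Fintype.ofFinite F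
  let g : G ≃+ (Fin r → ℤ) × F := f.trans
    (AddEquiv.prodCongr (Finsupp.linearEquivFunOnFinite ℤ ℤ (Fin r)).toAddEquiv (AddEquiv.refl F))
  have hr : Module.finrank ℤ G = r := by
    rw [LinearEquiv.finrank_eq g.toIntLinearEquiv, finrank_model]
  rw [hr]
  have hgen' : AddSubgroup.closure (range fun i => g (w' i)) = ⊤ := by
    have h1 : range (fun i => g (w' i)) = g '' range w' := by
      rw [← range_comp]; rfl
    have h2 := AddMonoidHom.map_closure g.toAddMonoidHom (range w')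
    rw [hgen] at h2
    rw [h1]
    refine h2.symm.trans ?_
    exact AddSubgroup.map_top_of_surjective _ g.surjective
  obtain ⟨κ, hκ, h⟩ := lcl_model (fun i => g (w' i)) hτ (fun i => by
    rw [← map_neg]
    congr 1
    exact Subtype.ext (hw i)) hgen' (i₀ := i₀) (by
    have h1 : w' i₀ = 0 := Subtype.ext h0
    rw [h1, map_zero])
  refine ⟨κ, hκ, h.congr fun n => ?_⟩
  rw [cw_congr (w := fun i => g (w' i)) (w' := w) fun n f => ?_]
  rw [← map_sum, map_eq_zero_iff g g.injective, ← Subtype.val_inj, AddSubgroup.val_finsetSum]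
  rfl

/-- The local limit theorem, with real powers. -/
theorem lcl' {Q ι : Type*} [AddCommGroup Q] [Fintype ι] (w : ι → Q) {τ : ι → ι}
    (hτ : Function.Bijective τ) (hw : ∀ i, w (τ i) = -w i) {i₀ : ι} (h0 : w i₀ = 0) :
    ∃ κ : ℝ, 0 < κ ∧ Tendsto (fun n : ℕ => (cw w (n + 1) : ℝ) *
      ((n + 1 : ℕ) : ℝ) ^ ((Module.finrank ℤ (AddSubgroup.closure (range w)) : ℝ) / 2) /
        (Fintype.card ι : ℝ) ^ (n + 1)) atTop (𝓝 κ) := by
  obtain ⟨κ, hκ, h⟩ := lcl w hτ hw h0
  refine ⟨κ, hκ, (h.comp (tendsto_add_atTop_nat 1)).congr fun n => ?_⟩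
  rw [Function.comp_apply]
  congr 2
  rw [Real.sqrt_eq_rpow, ← Real.rpow_mul_natCast (by positivity)]
  congr 1
  ring

end Pool.Agent.L7h85.GR
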