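import Pool.Agent.R908.TAbDefs

/-!
# Definitions for the exact growth of the numbers of algebraic classes and Tate classes
-/

set_option autoImplicit false

open Filter Topology

universe u v

namespace Pool.Agent.L7h85.GR

open Pool.Agent.H914 VarClass Obj WeilCohomology Pool.Agent.W534 Pool.Agent.R908

open Classical in
/-- the sum of the products of the binomial coefficients `C (2 n, n + r_i)` over the vectors `r` in
the subgroup `P` of `ℤ ^ g` -/
noncomputable def latN {g : ℕ} (P : AddSubgroup (Fin g → ℤ)) (n : ℕ) : ℕ :=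
  ∑ j : Fin g → Fin (2 * n + 1),
    if (fun i => ((j i : ℕ) : ℤ) - n) ∈ P then ∏ i, (2 * n).choose (j i) else 0

/-- the rank of `ℤ ^ g / P` -/
noncomputable def corank {g : ℕ} (P : AddSubgroup (Fin g → ℤ)) : ℕ :=
  Module.finrank ℤ ((Fin g → ℤ) ⧸ P)

/-- `f n ~ κ * a ^ (n + 1) / (n + 1) ^ (r / 2)` -/
def Growth (f : ℕ → ℕ) (a r : ℕ) (κ : ℝ) : Prop :=
  Tendsto (fun n : ℕ => (f n : ℝ) * ((n + 1 : ℕ) : ℝ) ^ ((r : ℝ) / 2) / (a : ℝ) ^ (n + 1))
    atTop (𝓝 κ)

/-- the group generated by the numbers `α ^ 2 / q` with `α ∈ E` -/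
def angleGrp {K : Type v} [Field K] (E : Set K) (q : K) : Subgroup Kˣ :=
  Subgroup.closure {x | ∃ α ∈ E, (x : K) * q = α ^ 2}

/-- the rank of the group generated by the numbers `α ^ 2 / q` with `α ∈ E` -/
noncomputable def angRk {K : Type v} [Field K] (E : Set K) (q : K) : ℕ :=
  Module.finrank ℤ (Additive (angleGrp E q))

/-- the eigenvalues of `F` on the subspace `N` -/
def eigs {K V : Type v} [Field K] [AddCommGroup V] [Module K V] (F : Module.End K V)
    (N : Submodule K V) : Set K :=
  {α | ∃ v ∈ N, v ≠ 0 ∧ F v = α • v}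

/-- The angle rank: the rank of the group generated by the numbers `α ^ 2 / q`, where `α` is an
eigenvalue of the Frobenius endomorphism on the first cohomology group and `q` the number of
elements of the field over which it is defined. -/
noncomputable def angleRank {k : Type u} [Field k] {𝒱 : VarClass k} {ops : CycleOps 𝒱}
    {W : WeilCohomology.{u, v} ops} {p : ℕ} (Φ : FrobSystem W p) (X : 𝒱.Obj) : ℕ :=
  angRk (eigs (frobAll Φ X) (W.gr X 1)) ((p : W.K) ^ Φ.e X)

end Pool.Agent.L7h85.GR
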