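import Pool.Agent.L7h85.GR.Sub
import Pool.Agent.L7h85.GR.Defs
import Pool.Agent.L7h94.SI.Final

/-!
# Exact growth for abelian varieties
-/

set_option linter.unusedVariables false
set_option linter.unusedSectionVars false
set_option autoImplicit false

open CategoryTheory AlgebraicGeometry CategoryTheory.Limits Filter Topology

universe u v w

namespace Pool.Agent.L7h85.GR

open Module
open Pool.Agent.H914 Pool.Agent.H914.VarClass Pool.Agent.H914.VarClass.Obj
  Pool.Agent.H914.WeilCohomology Pool.Agent.W534 Pool.Agent.H281R3.HT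
open Pool.Agent.Y133.Half (cycRank tateDim)
open Pool.Agent.R940 (exists_ebasis IsEig)
open Pool.Agent.N181.Ab Pool.Agent.R908
open Pool.Agent.L7h94.GP (LW inc)
open Pool.Agent.L7h94.SI
open Pool.Agent.Y163 (HBasis)

variable {k : Type u} [Field k] {𝒱 : VarClass k} {ops : CycleOps 𝒱}
  {W : WeilCohomology.{u, v} ops} {X : 𝒱.Obj} {p : ℕ}

theorem prod_zpow_sum {G ι : Type*} [CommGroup G] (q : G) (z : ι → ℤ) (s : Finset ι) :
    q ^ (∑ l ∈ s, z l) = ∏ l ∈ s, q ^ z l := by
  classical
  induction s using Finset.induction_on with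
  | empty => simp
  | insert a s ha ih => rw [Finset.sum_insert ha, Finset.prod_insert ha, zpow_add, ih]

section

variable {Φ : FrobSystem W p} {β : Type w} [Fintype β] [DecidableEq β] {b : β → W.H X}
  {lam : β → W.K} [DecidableEq (KT W.K)] (h : Data Φ b lam)

include h

theorem cycRank_eq_pN (n : ℕ) : cycRank ops (Pool.Agent.Y163.pw X n) = pN h.R (n + 1) := by
  classical
  rw [h.rank_eq, rN, pN, Nat.card_eq_fintype_card, Fintype.card_subtype]
  congr 1
  ext S
  simp only [Finset.mem_filter, Finset.mem_univ, true_and]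
  rw [h.sum_w]
  exact QuotientAddGroup.eq_zero_iff _

theorem tateDim_eq_pN (n : ℕ) : tateDim Φ (Pool.Agent.Y163.pw X n) = pN h.T (n + 1) := by
  classical
  rw [h.tate_eq, tN, pN, Nat.card_eq_fintype_card, Fintype.card_subtype]
  congr 1
  ext S
  simp only [Finset.mem_filter, Finset.mem_univ, true_and]
  rw [h.sum_w, h.mem_H]

theorem pairs : ∃ e : Fin X.dim ⊕ Fin X.dim ≃ β,
    ∀ i, (Pi.single (e (Sum.inl i)) 1 + Pi.single (e (Sum.inr i)) 1 : β → ℤ) ∈ h.R := by
  obtain ⟨e, -, he⟩ := h.pairing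
  refine ⟨e, fun i => ?_⟩
  have h1 := he i
  rw [eq_neg_iff_add_eq_zero, Data.w, Data.w, ← QuotientAddGroup.mk_add,
    QuotientAddGroup.eq_zero_iff, add_comm] at h1
  exact h1

/-- the product of the classes -/
noncomputable def th : (β → ℤ) →+ Additive (KT W.K) where
  toFun z := Additive.ofMul (∏ l, (lc h.eig l ^ 2 / qc Φ X) ^ z l)
  map_zero' := by simp
  map_add' x y := by
    simp only [Pi.add_apply, zpow_add, Finset.prod_mul_distrib, ofMul_mul]

theorem th_eq (z : β → ℤ) : th h z = Additive.ofMul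
    ((∏ l, lc h.eig l ^ z l) ^ 2 / qc Φ X ^ (∑ l, z l)) := by
  change Additive.ofMul _ = _
  congr 1
  rw [← Finset.prod_pow, prod_zpow_sum, ← Finset.prod_div_distrib]
  refine Finset.prod_congr rfl fun l _ => ?_
  rw [div_zpow, ← zpow_natCast, ← zpow_natCast, ← zpow_mul, ← zpow_mul, mul_comm]

theorem th_eq_zero (z : β → ℤ) : th h z = 0 ↔
    (∏ l, lc h.eig l ^ z l) ^ 2 = qc Φ X ^ (∑ l, z l) := by
  rw [th_eq, ← ofMul_one, Additive.ofMul.injective.eq_iff, div_eq_one]

theorem finrank_T : finrank ℤ ((β → ℤ) ⧸ h.T) = finrank ℤ (th h).range := by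
  have hle : h.T ≤ (th h).ker := by
    intro z hz
    rw [AddMonoidHom.mem_ker, th_eq_zero]
    exact hz.2
  let f : (β → ℤ) ⧸ h.T →+ Additive (KT W.K) := QuotientAddGroup.lift h.T (th h) hle
  have hf : ∀ x, f x = 0 → ∃ n : ℕ, 0 < n ∧ n • x = 0 := by
    intro x hx
    obtain ⟨z, rfl⟩ := QuotientAddGroup.mk_surjective x
    have h1 : (∏ l, lc h.eig l ^ z l) ^ 2 = qc Φ X ^ (∑ l, z l) := (th_eq_zero h z).1 hx
    refine ⟨2, two_pos, ?_⟩
    rw [← QuotientAddGroup.mk_nsmul, QuotientAddGroup.eq_zero_iff]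
    refine ⟨?_, ?_⟩
    · simp only [Pi.smul_apply, nsmul_eq_mul]
      rw [← Finset.mul_sum]
      exact ⟨∑ l, z l, by push_cast; ring⟩
    · simp only [Pi.smul_apply, nsmul_eq_mul]
      have h2 : ∏ l, lc h.eig l ^ (((2 : ℕ) : ℤ) * z l) = (∏ l, lc h.eig l ^ z l) ^ 2 := by
        rw [← Finset.prod_pow]
        refine Finset.prod_congr rfl fun l _ => ?_
        rw [mul_comm, zpow_mul, zpow_natCast]
      rw [h2, h1, ← Finset.mul_sum, mul_comm, zpow_mul, zpow_natCast]
  rw [← finrank_range f hf]
  have h1 : f.range = (th h).range := by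
    ext x
    constructor
    · rintro ⟨y, rfl⟩
      obtain ⟨z, rfl⟩ := QuotientAddGroup.mk_surjective y
      exact ⟨z, rfl⟩
    · rintro ⟨z, rfl⟩
      exact ⟨QuotientAddGroup.mk z, rfl⟩
  rw [h1]

theorem finrank_R_le : finrank ℤ ((β → ℤ) ⧸ h.R) ≤ X.dim := by
  obtain ⟨e, he⟩ := pairs h
  have h1 : Submodule.span ℤ (Set.range fun i : Fin X.dim =>
      (QuotientAddGroup.mk (Pi.single (e (Sum.inl i)) 1) : (β → ℤ) ⧸ h.R)) = ⊤ := by
    rw [eq_top_iff]
    rintro x -
    obtain ⟨z, rfl⟩ := QuotientAddGroup.mk_surjective x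
    have hl : ∀ l, (QuotientAddGroup.mk (Pi.single l 1) : (β → ℤ) ⧸ h.R) ∈
        Submodule.span ℤ (Set.range fun i : Fin X.dim =>
          (QuotientAddGroup.mk (Pi.single (e (Sum.inl i)) 1) : (β → ℤ) ⧸ h.R)) := by
      intro l
      obtain ⟨a, rfl⟩ := e.surjective l
      rcases a with i | i
      · exact Submodule.subset_span ⟨i, rfl⟩
      · have h2 := (QuotientAddGroup.eq_zero_iff _).2 (he i)
        rw [QuotientAddGroup.mk_add, add_comm, ← eq_neg_iff_add_eq_zero] at h2
        rw [h2]
        exact Submodule.neg_mem _ (Submodule.subset_span ⟨i, rfl⟩)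
    have h3 : z = ∑ l, z l • (Pi.single l 1 : β → ℤ) := by
      funext j
      rw [Finset.sum_apply, Finset.sum_eq_single j]
      · rw [Pi.smul_apply, Pi.single_eq_same, smul_eq_mul, mul_one]
      · intro i _ hi
        rw [Pi.smul_apply, Pi.single_eq_of_ne hi.symm, smul_zero]
      · intro h; exact absurd (Finset.mem_univ _) h
    have h4 : (QuotientAddGroup.mk z : (β → ℤ) ⧸ h.R) =
        ∑ l, z l • (QuotientAddGroup.mk (Pi.single l 1) : (β → ℤ) ⧸ h.R) := by
      conv_lhs => rw [h3]
      change QuotientAddGroup.mk' h.R _ = _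
      rw [map_sum]
      simp only [map_zsmul]
      rfl
    rw [h4]
    exact Submodule.sum_mem _ fun l _ => Submodule.smul_mem _ _ (hl l)
  have h2 := finrank_range_le_card (R := ℤ) (fun i : Fin X.dim =>
      (QuotientAddGroup.mk (Pi.single (e (Sum.inl i)) 1) : (β → ℤ) ⧸ h.R))
  rw [Set.finrank, h1, finrank_top, Fintype.card_fin] at h2
  exact h2

theorem finrank_T_le : finrank ℤ ((β → ℤ) ⧸ h.T) ≤ finrank ℤ ((β → ℤ) ⧸ h.R) := by
  let f : ((β → ℤ) ⧸ h.R) →+ ((β → ℤ) ⧸ h.T) :=
    QuotientAddGroup.map h.R h.T (AddMonoidHom.id _) h.R_le_T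
  have hfin : Module.Finite ℤ ((β → ℤ) ⧸ h.R) :=
    Module.Finite.of_surjective (QuotientAddGroup.mk' h.R).toIntLinearMap
      (QuotientAddGroup.mk'_surjective h.R)
  refine LinearMap.finrank_le_finrank_of_surjective (f := f.toIntLinearMap) ?_
  intro x
  obtain ⟨z, rfl⟩ := QuotientAddGroup.mk_surjective x
  exact ⟨QuotientAddGroup.mk z, rfl⟩

end

section

variable {Φ : FrobSystem W p} {ι : Type v} {B : HBasis W X ι} {m : X.prod X ⟶ X} {D : X.Cycles}

/-- The group generated by the numbers `α ^ 2 / q`. -/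
def angleGroup (Φ : FrobSystem W p) (X : 𝒱.Obj) : Subgroup W.Kˣ :=
  angleGrp (eigs (Pool.Agent.R908.frobAll Φ X) (W.gr X 1)) ((p : W.K) ^ Φ.e X)

theorem angleRank_def (Φ : FrobSystem W p) (X : 𝒱.Obj) :
    angleRank Φ X = finrank ℤ (Additive (angleGroup Φ X)) := rfl

/-- the angle rank as the rank of a quotient -/
theorem angleRank_eq [Finite ι] [Fintype (LW B 1)] [DecidableEq (LW B 1)]
    [DecidableEq (KT W.K)] {μ : LW B 1 → W.K} (h : Data Φ (lb B) μ) :
    finrank ℤ ((LW B 1 → ℤ) ⧸ h.T) = angleRank Φ X := by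
  classical
  rw [finrank_T, angleRank_def]
  -- the projection of the group of angles
  let f : Additive (angleGroup Φ X) →+ Additive (KT W.K) :=
    MonoidHom.toAdditive ((QuotientGroup.mk' (CommGroup.torsion W.Kˣ)).comp
      (angleGroup Φ X).subtype)
  have hf : ∀ x, f x = 0 → ∃ n : ℕ, 0 < n ∧ n • x = 0 := by
    intro x hx
    have h1 : ((Additive.toMul x : angleGroup Φ X) : W.Kˣ) ∈ CommGroup.torsion W.Kˣ := by
      rw [← QuotientGroup.eq_one_iff]
      exact hx
    obtain ⟨n, hn, h2⟩ := isOfFinOrder_iff_pow_eq_one.1 h1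
    refine ⟨n, hn, ?_⟩
    apply Additive.toMul.injective
    exact Subtype.ext h2
  rw [← finrank_range f hf]
  have hrange : f.range = (th h).range := by
    have hx0 : ∀ x : W.Kˣ, (hx : x ∈ angleGroup Φ X) →
        Additive.ofMul (QuotientGroup.mk x : KT W.K) ∈ (th h).range := by
      intro x hx
      induction hx using Subgroup.closure_induction with
      | mem x hx =>
        obtain ⟨α, ⟨v, hv, hv0, hα0⟩, hxα⟩ := hx
        have hα : W.map (Φ.Fr X) v = α • v := hα0
        -- the eigenvalue is one of the `μ l`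
        obtain ⟨l, hl⟩ : ∃ l, α = μ l := by
          have h1 := mem_span_lb (B := B) hv
          rw [← Set.image_univ] at h1
          obtain ⟨c, hc⟩ := (Submodule.mem_span_range_iff_exists_fun W.K).1
            (by rwa [Set.image_univ] at h1)
          obtain ⟨l, hl⟩ : ∃ l, c l ≠ 0 := by
            by_contra hcon
            push Not at hcon
            apply hv0
            rw [← hc]
            exact Finset.sum_eq_zero fun l _ => by rw [hcon l, zero_smul]
          refine ⟨l, ?_⟩
          have e1 : ∀ l, W.map (Φ.Fr X) (lb B l) = μ l • lb B l := by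
            intro l
            have h2 := h.eig.eig l 1
            rw [pow_one] at h2
            have h3 : frob Φ X 1 (lb B l) = W.map (Φ.Fr X) (lb B l) := by
              change W.map (𝟙 X ≫ Φ.Fr X) _ = _
              rw [Category.id_comp]
            rw [← h3, h2]
          have h2 : ∑ l, ((α - μ l) * c l) • lb B l = 0 := by
            have h3 : W.map (Φ.Fr X) (∑ l, c l • lb B l) = ∑ l, c l • μ l • lb B l := by
              rw [map_sum]
              exact Finset.sum_congr rfl fun l _ => by rw [map_smul, e1]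
            rw [hc, hα, ← hc, Finset.smul_sum] at h3
            have h4 : ∑ l, ((α - μ l) * c l) • lb B l =
                ∑ l, α • c l • lb B l - ∑ l, c l • μ l • lb B l := by
              rw [← Finset.sum_sub_distrib]
              refine Finset.sum_congr rfl fun l _ => ?_
              rw [smul_smul, smul_smul, ← sub_smul]
              congr 1
              ring
            rw [h4, h3, sub_self]
          have h3 := Fintype.linearIndependent_iff.1 (lb_li B) _ h2 l
          rcases mul_eq_zero.1 h3 with h4 | h4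
          · exact sub_eq_zero.1 h4
          · exact absurd h4 hl
        refine ⟨Pi.single l 1, ?_⟩
        rw [th_eq, prod_single, sum_single, zpow_one]
        congr 1
        rw [lc, qc, ← QuotientGroup.mk_pow, ← QuotientGroup.mk_div]
        congr 1
        rw [div_eq_iff_eq_mul]
        apply Units.ext
        rw [Units.val_mul, Units.val_pow_eq_pow_val, Units.val_mk0, Units.val_mk0, ← hl, hxα]
      | one => exact ⟨0, by rw [map_zero]; rfl⟩
      | mul x y _ _ hx hy =>
        rw [QuotientGroup.mk_mul, ofMul_mul]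
        exact AddSubgroup.add_mem _ hx hy
      | inv x _ hx =>
        rw [QuotientGroup.mk_inv, ofMul_inv]
        exact AddSubgroup.neg_mem _ hx
    apply le_antisymm
    · rintro _ ⟨x, rfl⟩
      exact hx0 _ (Additive.toMul x).2
    · rintro _ ⟨z, rfl⟩
      have h1 : th h z = ∑ l, z l • Additive.ofMul (lc h.eig l ^ 2 / qc Φ X) := by
        change Additive.ofMul _ = _
        rw [ofMul_prod]
        exact Finset.sum_congr rfl fun l _ => ofMul_zpow _ _
      rw [h1]
      refine AddSubgroup.sum_mem _ fun l _ => AddSubgroup.zsmul_mem _ ?_ _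
      have e1 : W.map (Φ.Fr X) (lb B l) = μ l • lb B l := by
        have h2 := h.eig.eig l 1
        rw [pow_one] at h2
        have h3 : frob Φ X 1 (lb B l) = W.map (Φ.Fr X) (lb B l) := by
          change W.map (𝟙 X ≫ Φ.Fr X) _ = _
          rw [Category.id_comp]
        rw [← h3, h2]
      have hmem : (Units.mk0 (μ l) (h.eig.ne l) ^ 2 / Units.mk0 _ (q_ne Φ X) : W.Kˣ) ∈
          angleGroup Φ X := by
        refine Subgroup.subset_closure ⟨μ l, ⟨lb B l, lb_gr l, (lb_li B).ne_zero l, e1⟩, ?_⟩
        rw [Units.val_div_eq_div_val, Units.val_pow_eq_pow_val, Units.val_mk0, Units.val_mk0,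
          div_mul_cancel₀ _ (q_ne Φ X)]
      exact ⟨Additive.ofMul ⟨_, hmem⟩, rfl⟩
  rw [hrange]

end

end Pool.Agent.L7h85.GR
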