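import Pool.Agent.L7h85.GR.Sub
import Pool.Agent.L7h94.SI.Share
import Pool.Agent.L7h85.GR.Defs

/-!
# Exact formula: subsets and lattices
-/

set_option autoImplicit false
set_option linter.unusedSectionVars false

namespace Pool.Agent.L7h85.GR

open Finset Pool.Agent.L7h94.SI AddMonoidAlgebra

variable {β : Type*} [Fintype β] [DecidableEq β] {g : ℕ}

/-- the half of the letters -/
def hl (e : Fin g ⊕ Fin g ≃ β) : (Fin g → ℤ) →+ (β → ℤ) where
  toFun r := ∑ i, r i • (Pi.single (e (Sum.inl i)) 1 : β → ℤ)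
  map_zero' := by simp
  map_add' x y := by
    simp only [Pi.add_apply, add_smul, Finset.sum_add_distrib]

theorem hl_apply (e : Fin g ⊕ Fin g ≃ β) (r : Fin g → ℤ) :
    hl e r = ∑ i, r i • (Pi.single (e (Sum.inl i)) 1 : β → ℤ) := rfl

/-- the letters modulo `P` -/
def wl (P : AddSubgroup (β → ℤ)) (l : β) : (β → ℤ) ⧸ P := QuotientAddGroup.mk (Pi.single l 1)

theorem pN_eq_rN (P : AddSubgroup (β → ℤ)) (n : ℕ) : pN P n = rN (wl P) n := by
  classical
  rw [rN, pN, Nat.card_eq_fintype_card, Fintype.card_subtype]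
  congr 1
  ext S
  simp only [Finset.mem_filter, Finset.mem_univ, true_and]
  rw [← QuotientAddGroup.eq_zero_iff]
  have h1 : ∑ a ∈ S, wl P a.2 = QuotientAddGroup.mk' P (∑ a ∈ S, Pi.single a.2 1) := by
    rw [map_sum]; rfl
  rw [h1]
  rfl

/-- **The exact formula.** -/
theorem pN_eq_latN (P : AddSubgroup (β → ℤ)) (e : Fin g ⊕ Fin g ≃ β)
    (he : ∀ i, (Pi.single (e (Sum.inl i)) 1 + Pi.single (e (Sum.inr i)) 1 : β → ℤ) ∈ P) (n : ℕ) :
    pN P n = latN (P.comap (hl e)) n := by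
  classical
  have hw : ∀ i, wl P (e (Sum.inr i)) = - wl P (e (Sum.inl i)) := by
    intro i
    rw [eq_neg_iff_add_eq_zero, wl, wl, ← QuotientAddGroup.mk_add, QuotientAddGroup.eq_zero_iff,
      add_comm]
    exact he i
  have h1 : ((pN P n : ℕ) : ℝ) = (∏ i, uu (wl P (e (Sum.inl i))) n).coeff 0 := by
    rw [pN_eq_rN, rN_eq (wl P) e hw n, cor_zero, ip_XX_eq]
  have h2 : ∀ i : Fin g, uu (wl P (e (Sum.inl i))) n =
      ∑ j : Fin (2 * n + 1), (((2 * n).choose j : ℕ) : ℝ) •
        single (((j : ℕ) : ℤ) • wl P (e (Sum.inl i)) - (n : ℤ) • wl P (e (Sum.inl i))) (1 : ℝ) := by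
    intro i
    rw [uu_eq, Finset.sum_range]
    refine Finset.sum_congr rfl fun j _ => ?_
    rw [natCast_zsmul, natCast_zsmul]
  have h3 : ∏ i, uu (wl P (e (Sum.inl i))) n =
      ∑ j : Fin g → Fin (2 * n + 1), ((∏ i, (2 * n).choose (j i) : ℕ) : ℝ) •
        single (QuotientAddGroup.mk' P (hl e fun i => ((j i : ℕ) : ℤ) - n)) (1 : ℝ) := by
    simp only [h2]
    rw [Finset.prod_univ_sum, Fintype.piFinset_univ]
    refine Finset.sum_congr rfl fun j _ => ?_
    have h4 : ∀ s : Finset (Fin g), ∏ i ∈ s, (((2 * n).choose (j i) : ℕ) : ℝ) •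
        (single (((j i : ℕ) : ℤ) • wl P (e (Sum.inl i)) - (n : ℤ) • wl P (e (Sum.inl i))) (1 : ℝ) :
          AddMonoidAlgebra ℝ ((β → ℤ) ⧸ P)) =
        ((∏ i ∈ s, (2 * n).choose (j i) : ℕ) : ℝ) •
          single (∑ i ∈ s, (((j i : ℕ) : ℤ) - n) • wl P (e (Sum.inl i))) (1 : ℝ) := by
      intro s
      induction s using Finset.induction_on with
      | empty => simp [one_eq]
      | insert a s ha ih =>
        rw [Finset.prod_insert ha, ih, Finset.prod_insert ha, Finset.sum_insert ha,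
          smul_mul_smul_comm, single_mul_self', sub_smul, Nat.cast_mul]
    rw [h4]
    congr 3
    rw [hl_apply, map_sum]
    refine Finset.sum_congr rfl fun i _ => ?_
    rw [map_zsmul]
    rfl
  rw [h3, coeff_sum'] at h1
  have h5 : ((pN P n : ℕ) : ℝ) = ((latN (P.comap (hl e)) n : ℕ) : ℝ) := by
    rw [h1, latN]
    push_cast
    refine Finset.sum_congr rfl fun j _ => ?_
    rw [AddMonoidAlgebra.coeff_smul, coeff_single]
    change (_ : ℝ) * _ = _
    rw [Finsupp.single_apply]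
    have h6 : (QuotientAddGroup.mk' P (hl e fun i => ((j i : ℕ) : ℤ) - n) = 0) ↔
        (fun i => ((j i : ℕ) : ℤ) - n) ∈ P.comap (hl e) := by
      rw [AddSubgroup.mem_comap]
      exact QuotientAddGroup.eq_zero_iff _
    by_cases h7 : (fun i => ((j i : ℕ) : ℤ) - n) ∈ P.comap (hl e)
    · rw [if_pos (h6.2 h7), if_pos h7]
      push_cast
      ring
    · rw [if_neg (fun h => h7 (h6.1 h)), if_neg h7, mul_zero]
  exact_mod_cast h5

/-- the ranks of the quotients -/
theorem finrank_comap (P : AddSubgroup (β → ℤ)) (e : Fin g ⊕ Fin g ≃ β)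
    (he : ∀ i, (Pi.single (e (Sum.inl i)) 1 + Pi.single (e (Sum.inr i)) 1 : β → ℤ) ∈ P) :
    corank (P.comap (hl e)) = Module.finrank ℤ ((β → ℤ) ⧸ P) := by
  let f : ((Fin g → ℤ) ⧸ P.comap (hl e)) →+ ((β → ℤ) ⧸ P) :=
    QuotientAddGroup.map (P.comap (hl e)) P (hl e) le_rfl
  have hinj : Function.Injective f := by
    rw [injective_iff_map_eq_zero]
    intro x hx
    obtain ⟨z, rfl⟩ := QuotientAddGroup.mk_surjective x
    rw [QuotientAddGroup.eq_zero_iff, AddSubgroup.mem_comap, ← QuotientAddGroup.eq_zero_iff]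
    exact hx
  have hsurj : Function.Surjective f := by
    intro x
    obtain ⟨z, rfl⟩ := QuotientAddGroup.mk_surjective x
    refine ⟨QuotientAddGroup.mk fun i => z (e (Sum.inl i)) - z (e (Sum.inr i)), ?_⟩
    change QuotientAddGroup.mk (hl e _) = _
    rw [QuotientAddGroup.eq, hl_apply]
    have h1 : z = ∑ i, z (e (Sum.inl i)) • (Pi.single (e (Sum.inl i)) 1 : β → ℤ) +
        ∑ i, z (e (Sum.inr i)) • (Pi.single (e (Sum.inr i)) 1 : β → ℤ) := by
      have h3 : z = ∑ l, z l • (Pi.single l 1 : β → ℤ) := by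
        funext j
        rw [Finset.sum_apply, Finset.sum_eq_single j]
        · rw [Pi.smul_apply, Pi.single_eq_same, smul_eq_mul, mul_one]
        · intro i _ hi
          rw [Pi.smul_apply, Pi.single_eq_of_ne hi.symm, smul_zero]
        · intro h; exact absurd (Finset.mem_univ _) h
      conv_lhs => rw [h3]
      rw [← Equiv.sum_comp e, Fintype.sum_sum_type]
    have h2 : -(∑ i, (z (e (Sum.inl i)) - z (e (Sum.inr i))) •
        (Pi.single (e (Sum.inl i)) 1 : β → ℤ)) + z =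
        ∑ i, z (e (Sum.inr i)) • (Pi.single (e (Sum.inl i)) 1 + Pi.single (e (Sum.inr i)) 1) := by
      refine (congrArg (fun t => -(∑ i, (z (e (Sum.inl i)) - z (e (Sum.inr i))) •
        (Pi.single (e (Sum.inl i)) 1 : β → ℤ)) + t) h1).trans ?_
      simp only [sub_smul, Finset.sum_sub_distrib, smul_add, Finset.sum_add_distrib]
      abel
    rw [h2]
    exact AddSubgroup.sum_mem _ fun i _ => AddSubgroup.zsmul_mem _ (he i) _
  exact LinearEquiv.finrank_eq (AddEquiv.ofBijective f ⟨hinj, hsurj⟩).toIntLinearEquiv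

/-- The numbers determine the lattice. -/
theorem eq_of_latN {R T : AddSubgroup (Fin g → ℤ)} (hle : R ≤ T)
    (h : ∀ N, ∃ n, N ≤ n ∧ latN T n ≤ latN R n) : R = T := by
  classical
  refine le_antisymm hle fun z hz => ?_
  by_contra hzR
  obtain ⟨n, hn, h1⟩ := h (∑ i, (z i).natAbs)
  have hzn : ∀ i, (z i).natAbs ≤ n := fun i =>
    (Finset.single_le_sum (f := fun i => (z i).natAbs) (fun _ _ => Nat.zero_le _)
      (Finset.mem_univ i)).trans hn
  let j₀ : Fin g → Fin (2 * n + 1) := fun i => ⟨(z i + n).toNat, by have := hzn i; omega⟩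
  have hj₀ : (fun i => ((j₀ i : ℕ) : ℤ) - n) = z := by
    funext i
    have := hzn i
    change (((z i + n).toNat : ℕ) : ℤ) - n = z i
    omega
  refine absurd h1 (not_le.2 ?_)
  rw [latN, latN]
  refine Finset.sum_lt_sum (fun j _ => ?_) ⟨j₀, Finset.mem_univ _, ?_⟩
  · by_cases hR : (fun i => ((j i : ℕ) : ℤ) - n) ∈ R
    · rw [if_pos hR, if_pos (hle hR)]
    · rw [if_neg hR]
      exact Nat.zero_le _
  · rw [hj₀, if_neg hzR, if_pos hz]
    refine Finset.prod_pos fun i _ => Nat.choose_pos ?_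
    have := (j₀ i).2
    omega

end Pool.Agent.L7h85.GR
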