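import Pool.Agent.L7h85.GR.Ab
import Pool.Agent.L7h85.GR.Lat

/-!
# Exact growth for abelian varieties: the final theorem
-/

set_option linter.unusedVariables false
set_option linter.unusedSectionVars false
set_option autoImplicit false

open CategoryTheory AlgebraicGeometry CategoryTheory.Limits Filter Topology

open scoped ENNReal

universe u v w

namespace Pool.Agent.L7h85.GR

open Module
open Pool.Agent.H914 Pool.Agent.H914.VarClass Pool.Agent.H914.VarClass.Obj
  Pool.Agent.H914.WeilCohomology Pool.Agent.W534 Pool.Agent.H281R3.HT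
open Pool.Agent.Y133.Half (cycRank tateDim)
open Pool.Agent.R940 (exists_ebasis IsEig)
open Pool.Agent.N181.Ab Pool.Agent.R908
open Pool.Agent.L7h94.GP (LW inc)
open Pool.Agent.L7h94.SI
open Pool.Agent.Y163 (HBasis)
open Pool.Agent.Y129 (pw)
open Pool.Agent.H447 (HomEqNumIn)
open Pool.Agent.L7h78.TI (IsTateIndex exists_tateIndex)

theorem latN_pos {g : ℕ} (P : AddSubgroup (Fin g → ℤ)) (n : ℕ) : 0 < latN P n := by
  classical
  rw [latN]
  have h0 : (fun i : Fin g => (((⟨n, by omega⟩ : Fin (2 * n + 1)) : ℕ) : ℤ) - n) ∈ P := by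
    have : (fun i : Fin g => (((⟨n, by omega⟩ : Fin (2 * n + 1)) : ℕ) : ℤ) - n) = 0 := by
      funext i; simp
    rw [this]
    exact P.zero_mem
  refine Finset.sum_pos' (fun _ _ => Nat.zero_le _) ⟨fun _ => ⟨n, by omega⟩, Finset.mem_univ _, ?_⟩
  rw [if_pos h0]
  exact Finset.prod_pos fun i _ => Nat.choose_pos (by change n ≤ 2 * n; omega)

variable {k : Type u} [Field k] {𝒱 : VarClass k} {ops : CycleOps 𝒱}
  {W : WeilCohomology.{u, v} ops} {X : 𝒱.Obj} {p : ℕ} {Φ : FrobSystem W p}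
  {m : X.prod X ⟶ X} {D : X.Cycles}

/-- **Exact formula and exact growth for abelian varieties.** -/
theorem growth_full [Fact p.Prime] [IsAlgClosed W.K] [Nontrivial (W.H X)]
    (hA : IsAbelian Φ X m D) :
    ∃ R T : AddSubgroup (Fin X.dim → ℤ), R ≤ T ∧
      corank T = angleRank Φ X ∧
      (∀ n, cycRank ops (pw X n) = latN R (n + 1)) ∧
      (∀ n, tateDim Φ (pw X n) = latN T (n + 1)) ∧
      ((∀ n j, TateIn Φ (pw X n) j ∧ HomEqNumIn W (pw X n) j) ↔ R = T) ∧
      ∃ κ κ' : ℝ, 0 < κ ∧ 0 < κ' ∧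
        Growth (fun n => cycRank ops (pw X n)) (4 ^ X.dim) (corank R) κ ∧
        Growth (fun n => tateDim Φ (pw X n)) (4 ^ X.dim) (corank T) κ' ∧
        (corank R = corank T → ∃ N : ℕ, 0 < N ∧ κ' = N * κ) := by
  classical
  obtain ⟨ι, hfin, B, lam, hB⟩ := exists_ebasis Φ X
  have hft : Fintype ι := Fintype.ofFinite ι
  have hfl : Fintype (LW B 1) := by unfold LW; infer_instance
  have h := data_ab hA one_ne_zero hB
  obtain ⟨e, he⟩ := pairs h
  have heT := fun i => h.R_le_T (he i)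
  have hc : ∀ n, cycRank ops (pw X n) = latN (h.R.comap (hl e)) (n + 1) := by
    intro n
    rw [pw_eq, cycRank_eq_pN h, pN_eq_latN h.R e he]
  have ht : ∀ n, tateDim Φ (pw X n) = latN (h.T.comap (hl e)) (n + 1) := by
    intro n
    rw [pw_eq, tateDim_eq_pN h, pN_eq_latN h.T e heT]
  have hle : h.R.comap (hl e) ≤ h.T.comap (hl e) := AddSubgroup.comap_mono h.R_le_T
  obtain ⟨κ, hκ, h1⟩ := pN_growth h.R e he
  obtain ⟨κ', hκ', h2⟩ := pN_growth h.T e heT
  rw [← finrank_comap h.R e he] at h1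
  rw [← finrank_comap h.T e heT] at h2
  obtain ⟨N, hN1, hN⟩ := exists_tateIndex Φ X
  have hc0 : ∀ n, 0 < cycRank ops (pw X n) := fun n => by rw [hc]; exact latN_pos _ _
  refine ⟨h.R.comap (hl e), h.T.comap (hl e), hle, ?_, hc, ht, ⟨fun hT => ?_, fun hRT => ?_⟩,
    κ, κ', hκ, hκ', h1.congr fun n => ?_, h2.congr fun n => ?_, fun hr => ?_⟩
  · rw [finrank_comap h.T e heT, angleRank_eq h]
  · have hN' : N = 1 := hN.one_iff.2 hT
    refine eq_of_latN hle fun M => ⟨2 * M + 1 + 1, by omega, ?_⟩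
    have h3 := hN.le M
    rw [hN', ENNReal.div_le_iff (by exact_mod_cast (hc0 _).ne') (ENNReal.natCast_ne_top _)] at h3
    have h4 : tateDim Φ (pw X (2 * M + 1)) ≤ cycRank ops (pw X (2 * M + 1)) := by
      have h5 : ((tateDim Φ (pw X (2 * M + 1)) : ℕ) : ℝ≥0∞) ≤ cycRank ops (pw X (2 * M + 1)) := by
        simpa using h3
      exact_mod_cast h5
    rw [ht, hc] at h4
    exact h4
  · apply hN.one_iff.1
    have h3 : Tendsto (fun n => (tateDim Φ (pw X n) : ℝ≥0∞) / cycRank ops (pw X n)) atTop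
        (𝓝 1) := by
      refine tendsto_const_nhds.congr fun n => ?_
      rw [ht, hc, hRT, ENNReal.div_self]
      · exact_mod_cast (latN_pos _ _).ne'
      · exact ENNReal.natCast_ne_top _
    have h4 := tendsto_nhds_unique hN.tate h3
    exact_mod_cast h4
  · beta_reduce
    rw [pw_eq, cycRank_eq_pN h, pow_mul]
    norm_num
  · beta_reduce
    rw [pw_eq, tateDim_eq_pN h, pow_mul]
    norm_num
  · -- the quotient of the constants
    have h3 : Tendsto (fun n : ℕ => (tateDim Φ (pw X n) : ℝ) / cycRank ops (pw X n)) atTop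
        (𝓝 (κ' / κ)) := by
      refine (h2.div h1 hκ.ne').congr fun n => ?_
      have e1 : cycRank ops (pw X n) = pN h.R (n + 1) := by rw [pw_eq, cycRank_eq_pN h]
      have e2 : tateDim Φ (pw X n) = pN h.T (n + 1) := by rw [pw_eq, tateDim_eq_pN h]
      have e3 : (0 : ℝ) < pN h.R (n + 1) := by
        rw [← e1]; exact_mod_cast hc0 n
      rw [Pi.div_apply, hr, e1, e2]
      have e4 : (0 : ℝ) < ((n + 1 : ℕ) : ℝ) ^ ((corank (h.T.comap (hl e)) : ℝ) / 2) := by
        positivity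
      have e5 : (0 : ℝ) < (4 : ℝ) ^ (X.dim * (n + 1)) := by positivity
      field_simp
    have h4 : Tendsto (fun n => ENNReal.ofReal ((tateDim Φ (pw X n) : ℝ) / cycRank ops (pw X n)))
        atTop (𝓝 (ENNReal.ofReal (κ' / κ))) := ENNReal.tendsto_ofReal h3
    have h5 : (N : ℝ≥0∞) = ENNReal.ofReal (κ' / κ) := by
      refine tendsto_nhds_unique hN.tate (h4.congr fun n => ?_)
      rw [ENNReal.ofReal_div_of_pos (by exact_mod_cast hc0 n), ENNReal.ofReal_natCast,
        ENNReal.ofReal_natCast]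
    have h6 : N ≠ ⊤ := by
      rintro rfl
      exact ENNReal.ofReal_ne_top h5.symm
    obtain ⟨M, rfl⟩ := ENat.ne_top_iff_exists.1 h6
    refine ⟨M, ?_, ?_⟩
    · have : (1 : ℕ∞) ≤ (M : ℕ∞) := hN1
      exact_mod_cast this
    · have h7 : ((M : ℕ) : ℝ) = κ' / κ := by
        have h8 := congrArg ENNReal.toReal h5
        rw [ENNReal.toReal_ofReal (by positivity)] at h8
        rw [← h8]
        simp
      rw [h7, div_mul_cancel₀ _ hκ.ne']

end Pool.Agent.L7h85.GR
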