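import Pool.Agent.L7h85.GR.Lap

/-!
# Characters of `ℤ ^ r × F` and closed walks
-/

set_option autoImplicit false

namespace Pool.Agent.L7h85.GR

open MeasureTheory Filter Topology Set Real ComplexConjugate

variable {r : ℕ} {F : Type} [AddCommGroup F]

/-- the character of `ℤ ^ r × F` -/
noncomputable def ch (θ : Fin r → ℝ) (ψ : AddChar F ℂ) (x : (Fin r → ℤ) × F) : ℂ :=
  Complex.exp (Complex.I * ((∑ i, θ i * x.1 i : ℝ) : ℂ)) * ψ x.2

theorem ch_zero (θ : Fin r → ℝ) (ψ : AddChar F ℂ) : ch θ ψ 0 = 1 := by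
  simp [ch]

theorem ch_add (θ : Fin r → ℝ) (ψ : AddChar F ℂ) (x y : (Fin r → ℤ) × F) :
    ch θ ψ (x + y) = ch θ ψ x * ch θ ψ y := by
  have h1 : (∑ i, θ i * ((x + y).1 i : ℝ) : ℝ) = (∑ i, θ i * x.1 i) + ∑ i, θ i * y.1 i := by
    rw [← Finset.sum_add_distrib]
    refine Finset.sum_congr rfl fun i _ => ?_
    rw [Prod.fst_add, Pi.add_apply]
    push_cast
    ring
  rw [ch, ch, ch, h1, Prod.snd_add, AddChar.map_add_eq_mul, Complex.ofReal_add, mul_add,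
    Complex.exp_add]
  ring

theorem ch_sum {κ : Type*} (θ : Fin r → ℝ) (ψ : AddChar F ℂ) (s : Finset κ)
    (x : κ → (Fin r → ℤ) × F) : ch θ ψ (∑ k ∈ s, x k) = ∏ k ∈ s, ch θ ψ (x k) := by
  classical
  induction s using Finset.induction_on with
  | empty => rw [Finset.sum_empty, Finset.prod_empty, ch_zero]
  | insert a s ha ih => rw [Finset.sum_insert ha, Finset.prod_insert ha, ch_add, ih]

variable [Finite F]

theorem norm_ch (θ : Fin r → ℝ) (ψ : AddChar F ℂ) (x : (Fin r → ℤ) × F) : ‖ch θ ψ x‖ = 1 := by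
  rw [ch, norm_mul, AddChar.norm_apply, mul_one, mul_comm, Complex.norm_exp_ofReal_mul_I]

theorem ch_neg (θ : Fin r → ℝ) (ψ : AddChar F ℂ) (x : (Fin r → ℤ) × F) :
    ch θ ψ (-x) = conj (ch θ ψ x) := by
  have h1 : ch θ ψ x * ch θ ψ (-x) = 1 := by rw [← ch_add, add_neg_cancel, ch_zero]
  have h2 : ch θ ψ x * conj (ch θ ψ x) = 1 := by
    rw [Complex.mul_conj, Complex.normSq_eq_norm_sq, norm_ch]
    norm_num
  have h3 : ch θ ψ x ≠ 0 := fun h => by rw [h, zero_mul] at h1; exact zero_ne_one h1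
  exact mul_left_cancel₀ h3 (h1.trans h2.symm)

/-- the distance of the value of the character from one -/
noncomputable def sd (θ : Fin r → ℝ) (ψ : AddChar F ℂ) (x : (Fin r → ℤ) × F) : ℝ :=
  ‖ch θ ψ x - 1‖

omit [Finite F] in
theorem sd_nonneg (θ : Fin r → ℝ) (ψ : AddChar F ℂ) (x : (Fin r → ℤ) × F) : 0 ≤ sd θ ψ x :=
  norm_nonneg _

theorem sd_add (θ : Fin r → ℝ) (ψ : AddChar F ℂ) (x y : (Fin r → ℤ) × F) :
    sd θ ψ (x + y) ≤ sd θ ψ x + sd θ ψ y := by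
  have h1 : ch θ ψ (x + y) - 1 = ch θ ψ y * (ch θ ψ x - 1) + (ch θ ψ y - 1) := by
    rw [ch_add]; ring
  rw [sd, h1]
  refine (norm_add_le _ _).trans ?_
  rw [norm_mul, norm_ch, one_mul]
  exact le_rfl

theorem sd_neg (θ : Fin r → ℝ) (ψ : AddChar F ℂ) (x : (Fin r → ℤ) × F) :
    sd θ ψ (-x) = sd θ ψ x := by
  rw [sd, sd, ch_neg, ← map_one (starRingEnd ℂ), ← map_sub, RCLike.norm_conj, map_one]

theorem sd_sq (θ : Fin r → ℝ) (ψ : AddChar F ℂ) (x : (Fin r → ℤ) × F) :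
    sd θ ψ x ^ 2 = 2 * (1 - (ch θ ψ x).re) := by
  have h1 := norm_ch θ ψ x
  rw [sd, ← Complex.normSq_eq_norm_sq]
  rw [← sq_eq_sq₀ (norm_nonneg _) zero_le_one, one_pow, ← Complex.normSq_eq_norm_sq] at h1
  rw [Complex.normSq_apply] at h1 ⊢
  rw [Complex.sub_re, Complex.sub_im, Complex.one_re, Complex.one_im]
  linarith

variable {ι : Type*} [Fintype ι] (w : ι → (Fin r → ℤ) × F)

/-- the mean value of the character -/
noncomputable def av (θ : Fin r → ℝ) (ψ : AddChar F ℂ) : ℝ :=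
  (∑ i, (ch θ ψ (w i)).re) / Fintype.card ι

theorem sum_ch {τ : ι → ι} (hτ : Function.Bijective τ) (hw : ∀ i, w (τ i) = -w i) [Nonempty ι]
    (θ : Fin r → ℝ) (ψ : AddChar F ℂ) :
    ∑ i, ch θ ψ (w i) = ((Fintype.card ι * av w θ ψ : ℝ) : ℂ) := by
  have h1 : ∑ i, ch θ ψ (w i) = ∑ i, conj (ch θ ψ (w i)) := by
    refine Fintype.sum_bijective τ hτ _ _ fun i => ?_
    rw [hw, ch_neg, Complex.conj_conj]
  have h2 : conj (∑ i, ch θ ψ (w i)) = ∑ i, ch θ ψ (w i) := by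
    rw [map_sum]; exact h1.symm
  have h3 := Complex.conj_eq_iff_re.1 h2
  rw [← h3, av, mul_div_cancel₀, Complex.re_sum]
  exact Nat.cast_ne_zero.2 Fintype.card_ne_zero

theorem one_sub_av [Nonempty ι] (θ : Fin r → ℝ) (ψ : AddChar F ℂ) :
    1 - av w θ ψ = (∑ i, sd θ ψ (w i) ^ 2) / (2 * Fintype.card ι) := by
  have h0 : (Fintype.card ι : ℝ) ≠ 0 := Nat.cast_ne_zero.2 Fintype.card_ne_zero
  simp only [sd_sq]
  rw [← Finset.mul_sum, Finset.sum_sub_distrib, av, Finset.sum_const, Finset.card_univ,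
    nsmul_eq_mul, mul_one]
  field_simp

theorem av_le_one [Nonempty ι] (θ : Fin r → ℝ) (ψ : AddChar F ℂ) : av w θ ψ ≤ 1 := by
  have h1 := one_sub_av w θ ψ
  have h2 : 0 ≤ (∑ i, sd θ ψ (w i) ^ 2) / (2 * Fintype.card ι) := by positivity
  linarith

theorem le_av {i₀ : ι} (h0 : w i₀ = 0) (θ : Fin r → ℝ) (ψ : AddChar F ℂ) :
    -1 + 2 / (Fintype.card ι : ℝ) ≤ av w θ ψ := by
  classical
  have : Nonempty ι := ⟨i₀⟩
  have hc : (0 : ℝ) < Fintype.card ι := Nat.cast_pos.2 Fintype.card_pos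
  have h1 : ∀ i, -1 ≤ (ch θ ψ (w i)).re := fun i =>
    (abs_le.1 ((Complex.abs_re_le_norm _).trans (norm_ch θ ψ (w i)).le)).1
  have h2 : 2 - (Fintype.card ι : ℝ) ≤ ∑ i, (ch θ ψ (w i)).re := by
    rw [← Finset.add_sum_erase _ _ (Finset.mem_univ i₀), h0, ch_zero, Complex.one_re]
    have h3 : ∑ i ∈ Finset.univ.erase i₀, (-1 : ℝ) ≤
        ∑ i ∈ Finset.univ.erase i₀, (ch θ ψ (w i)).re := Finset.sum_le_sum fun i _ => h1 i
    rw [Finset.sum_const, Finset.card_erase_of_mem (Finset.mem_univ _), Finset.card_univ,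
      nsmul_eq_mul, Nat.cast_sub (Fintype.card_pos), Nat.cast_one] at h3
    linarith
  rw [av, le_div_iff₀ hc]
  field_simp
  linarith

/-- the distance at an element of the group generated by the steps -/
theorem sd_le_of_mem [Nonempty ι] {y : (Fin r → ℤ) × F}
    (hy : y ∈ AddSubgroup.closure (range w)) : ∃ C : ℝ, 0 ≤ C ∧ ∀ θ ψ,
      sd θ ψ y ≤ C * ∑ i, sd θ ψ (w i) := by
  classical
  induction hy using AddSubgroup.closure_induction with
  | mem y hy =>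
    obtain ⟨i, rfl⟩ := hy
    refine ⟨1, zero_le_one, fun θ ψ => ?_⟩
    rw [one_mul]
    exact Finset.single_le_sum (f := fun i => sd θ ψ (w i)) (fun i _ => sd_nonneg _ _ _)
      (Finset.mem_univ i)
  | zero =>
    refine ⟨0, le_rfl, fun θ ψ => ?_⟩
    rw [sd, ch_zero, sub_self, norm_zero, zero_mul]
  | add x y _ _ hx hy =>
    obtain ⟨C, hC, hx⟩ := hx
    obtain ⟨D, hD, hy⟩ := hy
    refine ⟨C + D, add_nonneg hC hD, fun θ ψ => ?_⟩
    rw [add_mul]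
    exact (sd_add θ ψ x y).trans (add_le_add (hx θ ψ) (hy θ ψ))
  | neg x _ hx =>
    obtain ⟨C, hC, hx⟩ := hx
    exact ⟨C, hC, fun θ ψ => by rw [sd_neg]; exact hx θ ψ⟩

theorem sd_sq_le_of_mem [Nonempty ι] {y : (Fin r → ℤ) × F}
    (hy : y ∈ AddSubgroup.closure (range w)) : ∃ C : ℝ, 0 ≤ C ∧ ∀ θ ψ,
      sd θ ψ y ^ 2 ≤ C * (1 - av w θ ψ) := by
  obtain ⟨C, hC, h⟩ := sd_le_of_mem w hy
  refine ⟨C ^ 2 * (Fintype.card ι * (2 * Fintype.card ι)), by positivity, fun θ ψ => ?_⟩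
  rw [one_sub_av]
  have h0 : (0 : ℝ) < 2 * Fintype.card ι := by
    have : (0 : ℝ) < Fintype.card ι := Nat.cast_pos.2 Fintype.card_pos
    linarith
  calc sd θ ψ y ^ 2 ≤ (C * ∑ i, sd θ ψ (w i)) ^ 2 := pow_le_pow_left₀ (sd_nonneg _ _ _) (h θ ψ) 2
    _ = C ^ 2 * (∑ i, sd θ ψ (w i)) ^ 2 := mul_pow _ _ _
    _ ≤ C ^ 2 * (Fintype.card ι * ∑ i, sd θ ψ (w i) ^ 2) := by
        refine mul_le_mul_of_nonneg_left ?_ (sq_nonneg _)
        have := sq_sum_le_card_mul_sum_sq (s := Finset.univ) (f := fun i => sd θ ψ (w i))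
        rwa [Finset.card_univ] at this
    _ = _ := by field_simp

omit [Finite F] in
theorem sd_single (θ : Fin r → ℝ) (hθ : θ ∈ box r) (ψ : AddChar F ℂ) (j : Fin r) :
    4 / π ^ 2 * θ j ^ 2 ≤ sd θ ψ (Pi.single j 1, 0) ^ 2 := by
  have h1 : (∑ i, θ i * ((Pi.single j (1 : ℤ) : Fin r → ℤ) i : ℝ) : ℝ) = θ j := by
    rw [Finset.sum_eq_single j]
    · rw [Pi.single_eq_same]; simp
    · intro i _ hi
      rw [Pi.single_eq_of_ne hi]; simp
    · intro h; exact absurd (Finset.mem_univ j) h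
  rw [sd, ch]
  dsimp only
  rw [h1, AddChar.map_zero_eq_one, mul_one, Complex.norm_exp_I_mul_ofReal_sub_one]
  have h2 : |θ j| ≤ π := abs_le.2 (hθ j (mem_univ j))
  have h3 : |θ j / 2| ≤ π / 2 := by
    rw [abs_div, abs_two]
    linarith
  have h4 := mul_abs_le_abs_sin h3
  rw [abs_div, abs_two] at h4
  rw [Real.norm_eq_abs, abs_mul, abs_two, mul_pow]
  have h5 : 1 / π * |θ j| ≤ |sin (θ j / 2)| := by
    refine le_trans (le_of_eq ?_) h4
    ring
  have h6 : (1 / π * |θ j|) ^ 2 ≤ |sin (θ j / 2)| ^ 2 :=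
    pow_le_pow_left₀ (by positivity) h5 2
  rw [mul_pow, sq_abs] at h6
  calc 4 / π ^ 2 * θ j ^ 2 = 2 ^ 2 * ((1 / π) ^ 2 * θ j ^ 2) := by ring
    _ ≤ _ := mul_le_mul_of_nonneg_left h6 (by norm_num)

/-- the bound for the trivial character of `F` -/
theorem av_bound (hgen : AddSubgroup.closure (range w) = ⊤) {i₀ : ι} (h0 : w i₀ = 0) :
    ∃ c : ℝ, 0 < c ∧ ∀ θ ∈ box r, ∀ ψ, |av w θ ψ| ≤ exp (-c * ∑ i, θ i ^ 2) := by
  classical
  have : Nonempty ι := ⟨i₀⟩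
  have hex : ∀ j : Fin r, ∃ C : ℝ, 0 ≤ C ∧ ∀ θ (ψ : AddChar F ℂ),
      sd θ ψ (Pi.single j 1, 0) ^ 2 ≤ C * (1 - av w θ ψ) := fun j =>
    sd_sq_le_of_mem w (by rw [hgen]; trivial)
  choose C hC hCb using hex
  set D : ℝ := π ^ 2 / 4 * ∑ j, C j with hD
  have hD0 : 0 ≤ D := mul_nonneg (by positivity) (Finset.sum_nonneg fun j _ => hC j)
  -- the upper bound for `av`
  have h1 : ∀ θ ∈ box r, ∀ ψ, ∑ i, θ i ^ 2 ≤ (D + 1) * (1 - av w θ ψ) := by
    intro θ hθ ψ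
    have h2 : ∑ i, θ i ^ 2 ≤ D * (1 - av w θ ψ) := by
      rw [hD, mul_assoc, Finset.sum_mul, Finset.mul_sum]
      refine Finset.sum_le_sum fun j _ => ?_
      have h3 := (sd_single θ hθ ψ j).trans (hCb j θ ψ)
      have h4 := mul_le_mul_of_nonneg_left h3 (show (0 : ℝ) ≤ π ^ 2 / 4 by positivity)
      refine le_trans (le_of_eq ?_) h4
      field_simp
    have h5 := av_le_one w θ ψ
    nlinarith
  have hcard : (0 : ℝ) < Fintype.card ι := Nat.cast_pos.2 Fintype.card_pos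
  set c : ℝ := min (1 / (D + 1)) (2 / (Fintype.card ι * (r * π ^ 2 + 1))) with hc
  have hc0 : 0 < c := lt_min (by positivity) (by positivity)
  refine ⟨c, hc0, fun θ hθ ψ => ?_⟩
  have h6 : |av w θ ψ| ≤ 1 - c * ∑ i, θ i ^ 2 := by
    have hS : 0 ≤ ∑ i, θ i ^ 2 := Finset.sum_nonneg fun i _ => sq_nonneg _
    rw [abs_le]
    constructor
    · have h7 := le_av w h0 θ ψ
      have h8 : ∑ i, θ i ^ 2 ≤ r * π ^ 2 := by
        have h9 : ∑ i, θ i ^ 2 ≤ ∑ i : Fin r, π ^ 2 := by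
          refine Finset.sum_le_sum fun i _ => ?_
          rw [← sq_abs]
          exact pow_le_pow_left₀ (abs_nonneg _) (abs_le.2 (hθ i (mem_univ i))) 2
        simpa using h9
      have h10 : c * ∑ i, θ i ^ 2 ≤ 2 / Fintype.card ι := by
        calc c * ∑ i, θ i ^ 2 ≤ 2 / (Fintype.card ι * (r * π ^ 2 + 1)) * (r * π ^ 2 + 1) :=
              mul_le_mul (min_le_right _ _) (by linarith) hS (by positivity)
          _ = 2 / Fintype.card ι := by field_simp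
      linarith
    · have h7 := h1 θ hθ ψ
      have h8 : c * ∑ i, θ i ^ 2 ≤ 1 - av w θ ψ := by
        calc c * ∑ i, θ i ^ 2 ≤ 1 / (D + 1) * ((D + 1) * (1 - av w θ ψ)) :=
              mul_le_mul (min_le_left _ _) h7 hS (by positivity)
          _ = 1 - av w θ ψ := by field_simp
      linarith
  refine h6.trans ?_
  have h11 := Real.add_one_le_exp (-c * ∑ i, θ i ^ 2)
  linarith

/-- the bound for the nontrivial characters of `F` -/
theorem av_bound' (hgen : AddSubgroup.closure (range w) = ⊤) {i₀ : ι} (h0 : w i₀ = 0)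
    (ψ : AddChar F ℂ) (hψ : ψ ≠ 1) : ∃ η : ℝ, 0 < η ∧ η ≤ 1 ∧ ∀ θ, |av w θ ψ| ≤ 1 - η := by
  classical
  have : Nonempty ι := ⟨i₀⟩
  obtain ⟨y, hy⟩ : ∃ y, ψ y ≠ 1 := by
    by_contra hcon
    push Not at hcon
    exact hψ (DFunLike.ext _ _ fun y => by rw [hcon y, AddChar.one_apply])
  obtain ⟨C, hC, h⟩ := sd_sq_le_of_mem w (y := ((0 : Fin r → ℤ), y)) (by rw [hgen]; trivial)
  have h1 : ∀ θ : Fin r → ℝ, sd θ ψ ((0 : Fin r → ℤ), y) = ‖ψ y - 1‖ := by
    intro θ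
    rw [sd, ch]
    simp
  have hpos : 0 < ‖ψ y - 1‖ ^ 2 := by
    have : 0 < ‖ψ y - 1‖ := norm_pos_iff.2 (sub_ne_zero.2 hy)
    positivity
  have hcard : (1 : ℝ) ≤ Fintype.card ι := by exact_mod_cast Fintype.card_pos (α := ι)
  set η : ℝ := min (min 1 (2 / Fintype.card ι)) (‖ψ y - 1‖ ^ 2 / (C + 1)) with hη
  refine ⟨η, lt_min (lt_min zero_lt_one (by positivity)) (by positivity),
    (min_le_left _ _).trans (min_le_left _ _), fun θ => ?_⟩
  rw [abs_le]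
  constructor
  · have h7 := le_av w h0 θ ψ
    have h8 : η ≤ 2 / Fintype.card ι := (min_le_left _ _).trans (min_le_right _ _)
    linarith
  · have h7 := h θ ψ
    rw [h1] at h7
    have h8 := av_le_one w θ ψ
    have h9 : ‖ψ y - 1‖ ^ 2 ≤ (C + 1) * (1 - av w θ ψ) := by nlinarith
    have h10 : η ≤ 1 - av w θ ψ := by
      refine (min_le_right _ _).trans ?_
      rw [div_le_iff₀ (by positivity)]
      linarith
    linarith

omit [Finite F] in
theorem continuous_ch (ψ : AddChar F ℂ) (x : (Fin r → ℤ) × F) :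
    Continuous fun θ : Fin r → ℝ => ch θ ψ x := by
  unfold ch
  fun_prop

omit [Finite F] in
theorem continuous_av (ψ : AddChar F ℂ) : Continuous fun θ : Fin r → ℝ => av w θ ψ := by
  unfold av
  refine Continuous.div_const (continuous_finsetSum _ fun i _ => ?_) _
  exact Complex.continuous_re.comp (continuous_ch ψ (w i))

end Pool.Agent.L7h85.GR
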