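import Mathlib

/-!
# Laplace's method on a box
-/

set_option autoImplicit false

namespace Pool.Agent.L7h85.GR

open MeasureTheory Filter Topology Set Real Pointwise

/-- the box `[-π, π] ^ r` -/
def box (r : ℕ) : Set (Fin r → ℝ) := Set.pi univ fun _ => Icc (-π) π

theorem measurableSet_box (r : ℕ) : MeasurableSet (box r) :=
  MeasurableSet.univ_pi fun _ => measurableSet_Icc

theorem isCompact_box (r : ℕ) : IsCompact (box r) :=
  isCompact_univ_pi fun _ => isCompact_Icc

/-- the Gaussian function is integrable -/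
theorem integrable_gauss {r : ℕ} {c : ℝ} (hc : 0 < c) :
    Integrable (fun u : Fin r → ℝ => exp (-c * ∑ i, u i ^ 2)) := by
  have h := Integrable.fintype_prod (ι := Fin r) (𝕜 := ℝ) (f := fun _ x => exp (-c * x ^ 2))
    (μ := fun _ => (volume : Measure ℝ)) (fun _ => integrable_exp_neg_mul_sq hc)
  refine h.congr (Eventually.of_forall fun u => ?_)
  beta_reduce
  rw [← Real.exp_sum, Finset.mul_sum]

/-- **Laplace's method.** -/
theorem laplace {r : ℕ} (φ : (Fin r → ℝ) → ℝ) (hφ : Measurable φ) {c : ℝ} (hc : 0 < c)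
    (hb : ∀ θ ∈ box r, |φ θ| ≤ exp (-c * ∑ i, θ i ^ 2)) (Q : (Fin r → ℝ) → ℝ)
    (hQ : ∀ u, Tendsto (fun n : ℕ => (n : ℝ) * (φ ((√n)⁻¹ • u) - 1)) atTop (𝓝 (-Q u))) :
    Tendsto (fun n : ℕ => √n ^ r * ∫ θ in box r, φ θ ^ n) atTop (𝓝 (∫ u, exp (-Q u))) := by
  -- the scaled integrals
  have h1 : ∀ᶠ n : ℕ in atTop, √n ^ r * ∫ θ in box r, φ θ ^ n =
      ∫ u, ((√n • box r).indicator (fun u => φ ((√n)⁻¹ • u) ^ n)) u := by
    filter_upwards [eventually_gt_atTop 0] with n hn
    have hn' : 0 < √(n : ℝ) := Real.sqrt_pos.2 (by exact_mod_cast hn)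
    have h2 := Measure.setIntegral_comp_smul_of_pos (volume : Measure (Fin r → ℝ))
      (fun u => φ ((√n)⁻¹ • u) ^ n) (box r) hn'
    rw [integral_indicator ((measurableSet_box r).const_smul_of_ne_zero hn'.ne')]
    have h3 : ∫ θ in box r, φ ((√n)⁻¹ • √n • θ) ^ n = ∫ θ in box r, φ θ ^ n := by
      refine setIntegral_congr_fun (measurableSet_box r) fun θ _ => ?_
      beta_reduce
      rw [inv_smul_smul₀ hn'.ne']
    rw [h3, Module.finrank_fin_fun, smul_eq_mul] at h2
    rw [h2, ← mul_assoc, mul_inv_cancel₀ (by positivity), one_mul]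
  refine Tendsto.congr' (h1.mono fun n hn => hn.symm) ?_
  refine tendsto_integral_of_dominated_convergence (fun u => exp (-c * ∑ i, u i ^ 2))
    (fun n => ?_) (integrable_gauss hc) (fun n => ?_) ?_
  · by_cases hn : n = 0
    · subst hn
      simp only [Nat.cast_zero, Real.sqrt_zero, pow_zero]
      refine (measurable_const.indicator ?_).aestronglyMeasurable
      rcases (box r).eq_empty_or_nonempty with he | he
      · rw [he]; simp
      · rw [zero_smul_set he]
        exact measurableSet_singleton 0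
    · have hn' : √(n : ℝ) ≠ 0 := (Real.sqrt_pos.2 (by positivity)).ne'
      refine Measurable.aestronglyMeasurable (Measurable.indicator ?_
        ((measurableSet_box r).const_smul_of_ne_zero hn'))
      exact (hφ.comp (measurable_const_smul _)).pow_const n
  · refine Eventually.of_forall fun u => ?_
    by_cases hu : u ∈ √(n : ℝ) • box r
    · rw [indicator_of_mem hu]
      by_cases hn : n = 0
      · subst hn
        rw [Nat.cast_zero, Real.sqrt_zero] at hu
        obtain ⟨v, _, rfl⟩ := hu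
        simp
      · have hn0 : (0 : ℝ) < n := by positivity
        have hn' : √(n : ℝ) ≠ 0 := (Real.sqrt_pos.2 hn0).ne'
        have h2 : (√(n : ℝ))⁻¹ • u ∈ box r := (mem_smul_set_iff_inv_smul_mem₀ hn' _ _).1 hu
        rw [Real.norm_eq_abs, abs_pow]
        refine (pow_le_pow_left₀ (abs_nonneg _) (hb _ h2) n).trans (le_of_eq ?_)
        rw [← Real.exp_nat_mul]
        congr 1
        simp only [Pi.smul_apply, smul_eq_mul, mul_pow]
        rw [← Finset.mul_sum, inv_pow, Real.sq_sqrt hn0.le]
        field_simp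
    · rw [indicator_of_notMem hu, norm_zero]
      positivity
  · refine Eventually.of_forall fun u => ?_
    have h2 : Tendsto (fun n : ℕ => φ ((√n)⁻¹ • u) ^ n) atTop (𝓝 (exp (-Q u))) := by
      have h3 := Real.tendsto_one_add_pow_exp_of_tendsto (hQ u)
      refine h3.congr fun n => ?_
      rw [add_sub_cancel]
    refine h2.congr' ?_
    obtain ⟨C, hC⟩ : ∃ C : ℝ, ∀ i, |u i| ≤ C := by
      obtain ⟨C, hC⟩ := (Set.finite_range fun i => |u i|).bddAbove
      exact ⟨C, fun i => hC (mem_range_self i)⟩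
    have h4 : Tendsto (fun n : ℕ => √(n : ℝ)) atTop atTop :=
      Real.tendsto_sqrt_atTop.comp tendsto_natCast_atTop_atTop
    filter_upwards [h4.eventually_ge_atTop (C / π), h4.eventually_gt_atTop 0] with n hn hn0
    rw [indicator_of_mem]
    rw [mem_smul_set_iff_inv_smul_mem₀ hn0.ne']
    intro i _
    rw [mem_Icc, ← abs_le, Pi.smul_apply, smul_eq_mul, abs_mul, abs_inv, abs_of_pos hn0,
      inv_mul_le_iff₀ hn0]
    exact (hC i).trans ((div_le_iff₀ Real.pi_pos).1 hn)

end Pool.Agent.L7h85.GR
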