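import Pool.Agent.L7h85.GR.Fou

/-!
# The local limit theorem for closed walks in abelian groups
-/

set_option autoImplicit false

namespace Pool.Agent.L7h85.GR

open MeasureTheory Filter Topology Set Real ComplexConjugate

/-- the number of the closed walks with `n` steps -/
noncomputable def cw {Q ι : Type*} [AddCommGroup Q] [Fintype ι] (w : ι → Q) (n : ℕ) : ℕ :=
  Nat.card {f : Fin n → ι // ∑ k, w (f k) = 0}

section

variable {r : ℕ} {F : Type} [AddCommGroup F]

theorem integral_exp_int (v : ℤ) :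
    ∫ x in Icc (-π) π, Complex.exp (Complex.I * ((x * v : ℝ) : ℂ)) =
      if v = 0 then (2 * π : ℂ) else 0 := by
  rw [integral_Icc_eq_integral_Ioc, ← intervalIntegral.integral_of_le (by linarith [Real.pi_pos])]
  split_ifs with h
  · subst h
    simp
    ring
  · have hc : Complex.I * (v : ℂ) ≠ 0 :=
      mul_ne_zero Complex.I_ne_zero (Int.cast_ne_zero.2 h)
    have h1 : ∀ x : ℝ, Complex.exp (Complex.I * ((x * v : ℝ) : ℂ)) =
        Complex.exp (Complex.I * v * x) := by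
      intro x
      congr 1
      push_cast
      ring
    simp only [h1]
    rw [integral_exp_mul_complex hc]
    have h2 : Complex.exp (Complex.I * v * ((π : ℝ) : ℂ)) =
        Complex.exp (Complex.I * v * ((-π : ℝ) : ℂ)) := by
      rw [Complex.exp_eq_exp_iff_exists_int]
      refine ⟨v, ?_⟩
      push_cast
      ring
    rw [h2, sub_self, zero_div]

theorem integral_exp_vec (v : Fin r → ℤ) :
    ∫ θ in box r, Complex.exp (Complex.I * ((∑ i, θ i * v i : ℝ) : ℂ)) =
      if v = 0 then ((2 * π : ℂ)) ^ r else 0 := by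
  have h1 : ∀ θ : Fin r → ℝ, Complex.exp (Complex.I * ((∑ i, θ i * v i : ℝ) : ℂ)) =
      ∏ i, Complex.exp (Complex.I * ((θ i * v i : ℝ) : ℂ)) := by
    intro θ
    rw [Complex.ofReal_sum, Finset.mul_sum, Complex.exp_sum]
  simp only [h1]
  rw [box, volume_pi, Measure.restrict_pi_pi,
    integral_fintype_prod_eq_prod (𝕜 := ℂ)
      (fun i x => Complex.exp (Complex.I * ((x * v i : ℝ) : ℂ)))]
  simp only [integral_exp_int]
  split_ifs with h
  · subst h
    simp
  · obtain ⟨i, hi⟩ : ∃ i, v i ≠ 0 := by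
      by_contra hcon
      push Not at hcon
      exact h (funext hcon)
    exact Finset.prod_eq_zero (Finset.mem_univ i) (if_neg hi)

variable [Fintype F] [DecidableEq F]

theorem sum_integral_ch (x : (Fin r → ℤ) × F) :
    ∑ ψ : AddChar F ℂ, ∫ θ in box r, ch θ ψ x =
      if x = 0 then ((2 * π : ℂ)) ^ r * Fintype.card F else 0 := by
  have h1 : ∀ ψ : AddChar F ℂ, ∫ θ in box r, ch θ ψ x =
      (if x.1 = 0 then ((2 * π : ℂ)) ^ r else 0) * ψ x.2 := by
    intro ψ
    rw [← integral_exp_vec, ← integral_mul_const]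
    rfl
  simp only [h1]
  rw [← Finset.mul_sum, AddChar.sum_apply_eq_ite]
  by_cases h2 : x.1 = 0 <;> by_cases h3 : x.2 = 0
  · rw [if_pos h2, if_pos h3, if_pos (Prod.ext h2 h3)]
  · rw [if_neg h3, if_neg (fun h : x = 0 => h3 (by rw [h]; rfl)), mul_zero]
  · rw [if_neg h2, if_neg (fun h : x = 0 => h2 (by rw [h]; rfl)), zero_mul]
  · rw [if_neg h2, if_neg (fun h : x = 0 => h2 (by rw [h]; rfl)), zero_mul]

variable {ι : Type*} [Fintype ι] (w : ι → (Fin r → ℤ) × F)

/-- **The Fourier formula.** -/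
theorem cw_eq {τ : ι → ι} (hτ : Function.Bijective τ) (hw : ∀ i, w (τ i) = -w i) [Nonempty ι]
    (n : ℕ) : (cw w n : ℝ) * ((2 * π) ^ r * Fintype.card F) =
      (Fintype.card ι : ℝ) ^ n * ∑ ψ : AddChar F ℂ, ∫ θ in box r, av w θ ψ ^ n := by
  classical
  have h1 : (cw w n : ℂ) * ((2 * π : ℂ) ^ r * Fintype.card F) =
      ∑ f : Fin n → ι, ∑ ψ : AddChar F ℂ, ∫ θ in box r, ch θ ψ (∑ k, w (f k)) := by
    simp only [sum_integral_ch]
    rw [Finset.sum_ite, Finset.sum_const_zero, add_zero, Finset.sum_const, nsmul_eq_mul]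
    congr 2
    rw [cw, Nat.card_eq_fintype_card, Fintype.card_subtype]
  have h2 : ∀ (f : Fin n → ι) (ψ : AddChar F ℂ),
      IntegrableOn (fun θ => ch θ ψ (∑ k, w (f k))) (box r) := fun f ψ =>
    (continuous_ch ψ _).continuousOn.integrableOn_compact (isCompact_box r)
  rw [Finset.sum_comm] at h1
  have h3 : ∀ ψ : AddChar F ℂ, ∑ f : Fin n → ι, ∫ θ in box r, ch θ ψ (∑ k, w (f k)) =
      ((Fintype.card ι ^ n * ∫ θ in box r, av w θ ψ ^ n : ℝ) : ℂ) := by
    intro ψ
    rw [← integral_finsetSum _ fun f _ => h2 f ψ]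
    have h4 : ∀ θ : Fin r → ℝ, ∑ f : Fin n → ι, ch θ ψ (∑ k, w (f k)) =
        ((Fintype.card ι ^ n * av w θ ψ ^ n : ℝ) : ℂ) := by
      intro θ
      rw [← mul_pow, Complex.ofReal_pow, ← sum_ch w hτ hw θ ψ,
        ← Fin.prod_const n (∑ i, ch θ ψ (w i)), Fintype.prod_sum]
      exact Finset.sum_congr rfl fun f _ => ch_sum θ ψ _ _
    simp only [h4]
    rw [integral_complex_ofReal, integral_const_mul]
  simp only [h3] at h1
  rw [← Complex.ofReal_sum, ← Finset.mul_sum] at h1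
  exact_mod_cast h1

theorem tendsto_cos (x : ℝ) :
    Tendsto (fun n : ℕ => (n : ℝ) * (cos ((√n)⁻¹ * x) - 1)) atTop (𝓝 (-(x ^ 2 / 2))) := by
  have h4 : Tendsto (fun n : ℕ => √(n : ℝ)) atTop atTop :=
    Real.tendsto_sqrt_atTop.comp tendsto_natCast_atTop_atTop
  have h5 : Tendsto (fun n : ℕ => x ^ 4 * (5 / 96) / (n : ℝ)) atTop (𝓝 0) :=
    tendsto_const_nhds.div_atTop tendsto_natCast_atTop_atTop
  rw [tendsto_iff_norm_sub_tendsto_zero]
  refine squeeze_zero' (Eventually.of_forall fun n => norm_nonneg _) ?_ h5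
  filter_upwards [h4.eventually_ge_atTop |x|, h4.eventually_gt_atTop 0,
    eventually_gt_atTop 0] with n hn hn0 hn1
  have hn1' : (0 : ℝ) < n := by exact_mod_cast hn1
  have h6 : |(√(n : ℝ))⁻¹ * x| ≤ 1 := by
    rw [abs_mul, abs_inv, abs_of_pos hn0, inv_mul_le_iff₀ hn0, mul_one]
    exact hn
  have h7 := cos_bound h6
  have h8 : ((√(n : ℝ))⁻¹ * x) ^ 2 = x ^ 2 / n := by
    rw [mul_pow, inv_pow, Real.sq_sqrt hn1'.le]
    ring
  have h9 : |(√(n : ℝ))⁻¹ * x| ^ 4 = x ^ 4 / (n : ℝ) ^ 2 := by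
    rw [show 4 = 2 * 2 by norm_num, pow_mul, sq_abs, h8]
    ring
  rw [h8, h9] at h7
  rw [Real.norm_eq_abs]
  have h10 : (n : ℝ) * (cos ((√(n : ℝ))⁻¹ * x) - 1) - -(x ^ 2 / 2) =
      n * (cos ((√(n : ℝ))⁻¹ * x) - (1 - x ^ 2 / n / 2)) := by
    field_simp
    ring
  rw [h10, abs_mul, abs_of_pos hn1']
  calc (n : ℝ) * |cos ((√(n : ℝ))⁻¹ * x) - (1 - x ^ 2 / n / 2)| ≤
      n * (x ^ 4 / (n : ℝ) ^ 2 * (5 / 96)) := mul_le_mul_of_nonneg_left h7 hn1'.le
    _ = _ := by field_simp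

/-- the variance of the steps in the direction `u` -/
noncomputable def qf (u : Fin r → ℝ) : ℝ :=
  (∑ j, (∑ i, u i * (w j).1 i) ^ 2 / 2) / Fintype.card ι

omit [Fintype F] [DecidableEq F] in
theorem re_ch_one (θ : Fin r → ℝ) (x : (Fin r → ℤ) × F) :
    (ch θ (1 : AddChar F ℂ) x).re = cos (∑ i, θ i * x.1 i) := by
  rw [ch, AddChar.one_apply, mul_one, mul_comm Complex.I, Complex.exp_ofReal_mul_I_re]

omit [Fintype F] [DecidableEq F] in
theorem tendsto_av [Nonempty ι] (u : Fin r → ℝ) :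
    Tendsto (fun n : ℕ => (n : ℝ) * (av w ((√n)⁻¹ • u) 1 - 1)) atTop (𝓝 (-qf w u)) := by
  have h0 : (Fintype.card ι : ℝ) ≠ 0 := Nat.cast_ne_zero.2 Fintype.card_ne_zero
  have h1 : ∀ n : ℕ, (n : ℝ) * (av w ((√n)⁻¹ • u) 1 - 1) =
      (∑ j, (n : ℝ) * (cos ((√n)⁻¹ * ∑ i, u i * (w j).1 i) - 1)) / Fintype.card ι := by
    intro n
    rw [← Finset.mul_sum, Finset.sum_sub_distrib, Finset.sum_const, Finset.card_univ,
      nsmul_eq_mul, mul_one, av]
    have h2 : ∀ j, (ch ((√(n : ℝ))⁻¹ • u) (1 : AddChar F ℂ) (w j)).re =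
        cos ((√n)⁻¹ * ∑ i, u i * (w j).1 i) := by
      intro j
      rw [re_ch_one]
      congr 1
      rw [Finset.mul_sum]
      refine Finset.sum_congr rfl fun i _ => ?_
      rw [Pi.smul_apply, smul_eq_mul, mul_assoc]
    simp only [h2]
    field_simp
  simp only [h1]
  have h3 : -qf w u = (∑ j, -((∑ i, u i * (w j).1 i) ^ 2 / 2)) / Fintype.card ι := by
    rw [qf, Finset.sum_neg_distrib, neg_div]
  rw [h3]
  exact (tendsto_finsetSum _ fun j _ => tendsto_cos _).div_const _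

/-- **The local limit theorem** for `ℤ ^ r × F`. -/
theorem lcl_model {τ : ι → ι} (hτ : Function.Bijective τ) (hw : ∀ i, w (τ i) = -w i)
    (hgen : AddSubgroup.closure (range w) = ⊤) {i₀ : ι} (h0 : w i₀ = 0) :
    ∃ κ : ℝ, 0 < κ ∧ Tendsto (fun n : ℕ => (cw w n : ℝ) * √n ^ r / (Fintype.card ι : ℝ) ^ n)
      atTop (𝓝 κ) := by
  classical
  have hne : Nonempty ι := ⟨i₀⟩
  have hcard : (0 : ℝ) < Fintype.card ι := Nat.cast_pos.2 Fintype.card_pos
  have hF : (0 : ℝ) < Fintype.card F := Nat.cast_pos.2 Fintype.card_pos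
  obtain ⟨c, hc, hb⟩ := av_bound w hgen h0
  -- the limits for the characters
  have h1 : Tendsto (fun n : ℕ => √n ^ r * ∫ θ in box r, av w θ 1 ^ n) atTop
      (𝓝 (∫ u, exp (-qf w u))) :=
    laplace (fun θ => av w θ 1) (continuous_av w 1).measurable hc (fun θ hθ => hb θ hθ 1) (qf w)
      (tendsto_av w)
  have h2 : ∀ ψ : AddChar F ℂ, ψ ≠ 1 →
      Tendsto (fun n : ℕ => √n ^ r * ∫ θ in box r, av w θ ψ ^ n) atTop (𝓝 0) := by
    intro ψ hψ
    obtain ⟨η, hη, hη1, hb'⟩ := av_bound' w hgen h0 ψ hψ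
    have h3 : ∀ n : ℕ, ‖√(n : ℝ) ^ r * ∫ θ in box r, av w θ ψ ^ n‖ ≤
        √n ^ r * (1 - η) ^ n * (volume (box r)).toReal := by
      intro n
      rw [norm_mul, Real.norm_of_nonneg (by positivity), mul_assoc]
      refine mul_le_mul_of_nonneg_left ?_ (by positivity)
      refine norm_setIntegral_le_of_norm_le_const (isCompact_box r).measure_lt_top fun θ _ => ?_
      rw [norm_pow]
      exact pow_le_pow_left₀ (norm_nonneg _) (hb' θ) n
    refine squeeze_zero_norm h3 ?_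
    have h4 : Tendsto (fun n : ℕ => √(n : ℝ) ^ r * (1 - η) ^ n) atTop (𝓝 0) := by
      have h5 : Tendsto (fun n : ℕ => (n : ℝ) ^ r * (1 - η) ^ n) atTop (𝓝 0) :=
        tendsto_pow_const_mul_const_pow_of_lt_one r (by linarith) (by linarith)
      refine squeeze_zero' (Eventually.of_forall fun n => ?_) ?_ h5
      · have : 0 ≤ 1 - η := by linarith
        positivity
      · filter_upwards [eventually_ge_atTop 1] with n hn
        have h6 : √(n : ℝ) ≤ n := by
          rw [Real.sqrt_le_left (by positivity)]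
          have : (1 : ℝ) ≤ n := by exact_mod_cast hn
          nlinarith
        have h7 : 0 ≤ 1 - η := by linarith
        exact mul_le_mul_of_nonneg_right (pow_le_pow_left₀ (Real.sqrt_nonneg _) h6 r)
          (pow_nonneg h7 n)
    simpa using h4.mul_const (volume (box r)).toReal
  -- positivity
  have h3 : Integrable fun u : Fin r → ℝ => exp (-qf w u) := by
    refine (integrable_gauss (r := r) hc).mono' ?_ (Eventually.of_forall fun u => ?_)
    · refine Continuous.aestronglyMeasurable ?_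
      unfold qf
      fun_prop
    · rw [Real.norm_of_nonneg (Real.exp_pos _).le]
      have h4 : Tendsto (fun n : ℕ => av w ((√n)⁻¹ • u) 1 ^ n) atTop (𝓝 (exp (-qf w u))) := by
        have h5 := Real.tendsto_one_add_pow_exp_of_tendsto (tendsto_av w u)
        refine h5.congr fun n => ?_
        rw [add_sub_cancel]
      refine le_of_tendsto h4 ?_
      obtain ⟨C, hC⟩ : ∃ C : ℝ, ∀ i, |u i| ≤ C := by
        obtain ⟨C, hC⟩ := (Set.finite_range fun i => |u i|).bddAbove
        exact ⟨C, fun i => hC (mem_range_self i)⟩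
      have h6 : Tendsto (fun n : ℕ => √(n : ℝ)) atTop atTop :=
        Real.tendsto_sqrt_atTop.comp tendsto_natCast_atTop_atTop
      filter_upwards [h6.eventually_ge_atTop (C / π), h6.eventually_gt_atTop 0,
        eventually_gt_atTop 0] with n hn hn0 hn1
      have hn1' : (0 : ℝ) < n := by exact_mod_cast hn1
      have h7 : (√(n : ℝ))⁻¹ • u ∈ box r := by
        intro i _
        rw [mem_Icc, ← abs_le, Pi.smul_apply, smul_eq_mul, abs_mul, abs_inv, abs_of_pos hn0,
          inv_mul_le_iff₀ hn0]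
        exact (hC i).trans ((div_le_iff₀ Real.pi_pos).1 hn)
      refine (le_abs_self _).trans ?_
      rw [abs_pow]
      refine (pow_le_pow_left₀ (abs_nonneg _) (hb _ h7 1) n).trans (le_of_eq ?_)
      rw [← Real.exp_nat_mul]
      congr 1
      simp only [Pi.smul_apply, smul_eq_mul, mul_pow]
      rw [← Finset.mul_sum, inv_pow, Real.sq_sqrt hn1'.le]
      field_simp
  have h4 : 0 < ∫ u, exp (-qf w u) := integral_exp_pos h3
  refine ⟨(∫ u, exp (-qf w u)) / ((2 * π) ^ r * Fintype.card F), by positivity, ?_⟩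
  have h5 : ∀ n : ℕ, (cw w n : ℝ) * √n ^ r / (Fintype.card ι : ℝ) ^ n =
      (∑ ψ : AddChar F ℂ, √n ^ r * ∫ θ in box r, av w θ ψ ^ n) /
        ((2 * π) ^ r * Fintype.card F) := by
    intro n
    have h6 := cw_eq w hτ hw n
    have h7 : (0 : ℝ) < (2 * π) ^ r * Fintype.card F := by positivity
    rw [div_eq_div_iff (by positivity) h7.ne', ← Finset.mul_sum, mul_right_comm, h6]
    ring
  simp only [h5]
  refine Tendsto.div_const ?_ _
  have h6 : (∫ u, exp (-qf w u)) = ∑ ψ : AddChar F ℂ, if ψ = 1 then ∫ u, exp (-qf w u) else 0 := by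
    rw [Finset.sum_ite_eq' Finset.univ (1 : AddChar F ℂ) fun _ => ∫ u, exp (-qf w u)]
    simp
  rw [h6]
  refine tendsto_finsetSum _ fun ψ _ => ?_
  split_ifs with hψ
  · subst hψ
    exact h1
  · exact h2 ψ hψ

end

end Pool.Agent.L7h85.GR
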