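import Pool.Agent.L7h85.GR.Gen

/-!
# Subsets whose values lie in a subgroup: exact growth
-/

set_option autoImplicit false

namespace Pool.Agent.L7h85.GR

open Filter Topology Set Real Finset

/-- A homomorphism with torsion kernel preserves the rank. -/
theorem finrank_range {G H : Type*} [AddCommGroup G] [AddCommGroup H] (f : G →+ H)
    (hf : ∀ x, f x = 0 → ∃ n : ℕ, 0 < n ∧ n • x = 0) :
    Module.finrank ℤ f.range = Module.finrank ℤ G := by
  set F : G →ₗ[ℤ] H := f.toIntLinearMap with hF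
  have h1 : LinearMap.ker F ≤ Submodule.torsion ℤ G := by
    intro x hx
    obtain ⟨n, hn, hx'⟩ := hf x hx
    refine ⟨⟨(n : ℤ), mem_nonZeroDivisors_of_ne_zero (Nat.cast_ne_zero.2 hn.ne')⟩, ?_⟩
    change (n : ℤ) • x = 0
    rw [Nat.cast_smul_eq_nsmul, hx']
  rw [← finrank_quotient_eq_of_le_torsion h1, LinearEquiv.finrank_eq F.quotKerEquivRange]
  rfl

/-- A surjection with torsion kernel preserves the rank. -/
theorem finrank_surj {G H : Type*} [AddCommGroup G] [AddCommGroup H] (f : G →+ H)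
    (hs : Function.Surjective f) (hf : ∀ x, f x = 0 → ∃ n : ℕ, 0 < n ∧ n • x = 0) :
    Module.finrank ℤ H = Module.finrank ℤ G := by
  set F : G →ₗ[ℤ] H := f.toIntLinearMap with hF
  have h1 : LinearMap.ker F ≤ Submodule.torsion ℤ G := by
    intro x hx
    obtain ⟨n, hn, hx'⟩ := hf x hx
    refine ⟨⟨(n : ℤ), mem_nonZeroDivisors_of_ne_zero (Nat.cast_ne_zero.2 hn.ne')⟩, ?_⟩
    change (n : ℤ) • x = 0
    rw [Nat.cast_smul_eq_nsmul, hx']
  rw [← finrank_quotient_eq_of_le_torsion h1,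
    LinearEquiv.finrank_eq (F.quotKerEquivOfSurjective hs)]

variable {β : Type*} [Fintype β] [DecidableEq β]

/-- the number of the subsets of `n` copies of `β` with values in `P` -/
noncomputable def pN (P : AddSubgroup (β → ℤ)) (n : ℕ) : ℕ :=
  Nat.card {S : Finset (Fin n × β) // ∑ a ∈ S, (Pi.single a.2 1 : β → ℤ) ∈ P}

/-- the letters modulo `P` -/
def wP (P : AddSubgroup (β → ℤ)) (s : Finset β) : (β → ℤ) ⧸ P :=
  QuotientAddGroup.mk (∑ l ∈ s, Pi.single l 1)

/-- subsets of the product and families of subsets -/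
def sfe (n : ℕ) : (Fin n → Finset β) ≃ Finset (Fin n × β) where
  toFun f := univ.filter fun a => a.2 ∈ f a.1
  invFun S k := univ.filter fun l => (k, l) ∈ S
  left_inv f := by ext k l; simp
  right_inv S := by ext a; simp

theorem sum_sfe {M : Type*} [AddCommMonoid M] (n : ℕ) (f : Fin n → Finset β) (g : β → M) :
    ∑ a ∈ sfe n f, g a.2 = ∑ k, ∑ l ∈ f k, g l := by
  rw [sfe, Equiv.coe_fn_mk, Finset.sum_filter, ← Finset.univ_product_univ, Finset.sum_product]
  refine Finset.sum_congr rfl fun k _ => ?_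
  rw [← Finset.sum_filter]
  refine Finset.sum_congr ?_ fun _ _ => rfl
  ext l
  simp

theorem pN_eq (P : AddSubgroup (β → ℤ)) (n : ℕ) : pN P n = cw (wP P) n := by
  rw [pN, cw]
  refine (Nat.card_congr (Equiv.subtypeEquiv (sfe n) fun f => ?_)).symm
  rw [sum_sfe n f (fun l => (Pi.single l 1 : β → ℤ)), ← QuotientAddGroup.eq_zero_iff]
  have h1 : ∑ k, wP P (f k) = QuotientAddGroup.mk' P (∑ k, ∑ l ∈ f k, Pi.single l 1) := by
    rw [map_sum]
    rfl
  rw [h1]
  rfl

theorem closure_wP (P : AddSubgroup (β → ℤ)) :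
    AddSubgroup.closure (range (wP P)) = ⊤ := by
  rw [eq_top_iff]
  rintro x -
  obtain ⟨z, rfl⟩ := QuotientAddGroup.mk_surjective x
  have h1 : z = ∑ l, z l • (Pi.single l 1 : β → ℤ) := by
    funext j
    rw [Finset.sum_apply, Finset.sum_eq_single j]
    · rw [Pi.smul_apply, Pi.single_eq_same, smul_eq_mul, mul_one]
    · intro i _ hi
      rw [Pi.smul_apply, Pi.single_eq_of_ne hi.symm, smul_zero]
    · intro h; exact absurd (Finset.mem_univ _) h
  have h2 : (QuotientAddGroup.mk z : (β → ℤ) ⧸ P) = ∑ l, z l • wP P {l} := by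
    have h3 : ∀ l, wP P {l} = QuotientAddGroup.mk' P (Pi.single l 1) := fun l => by
      rw [wP, Finset.sum_singleton]; rfl
    simp only [h3]
    change QuotientAddGroup.mk' P z = _
    conv_lhs => rw [h1]
    rw [map_sum]
    simp only [map_zsmul]
  rw [h2]
  exact AddSubgroup.sum_mem _ fun l _ => AddSubgroup.zsmul_mem _
    (AddSubgroup.subset_closure (mem_range_self _)) _

/-- **Exact growth.** -/
theorem pN_growth {g : ℕ} (P : AddSubgroup (β → ℤ)) (e : Fin g ⊕ Fin g ≃ β)
    (he : ∀ i, (Pi.single (e (Sum.inl i)) 1 + Pi.single (e (Sum.inr i)) 1 : β → ℤ) ∈ P) :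
    ∃ κ : ℝ, 0 < κ ∧ Tendsto (fun n : ℕ => (pN P (n + 1) : ℝ) *
      ((n + 1 : ℕ) : ℝ) ^ ((Module.finrank ℤ ((β → ℤ) ⧸ P) : ℝ) / 2) /
        (4 : ℝ) ^ (g * (n + 1))) atTop (𝓝 κ) := by
  -- the involution
  let t : Equiv.Perm β := (e.symm.trans (Equiv.sumComm _ _)).trans e
  have ht : ∀ l, (Pi.single l 1 + Pi.single (t l) 1 : β → ℤ) ∈ P := by
    intro l
    obtain ⟨a, rfl⟩ := e.surjective l
    have h1 : t (e a) = e a.swap := by
      change e ((Equiv.sumComm _ _) (e.symm (e a))) = _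
      rw [Equiv.symm_apply_apply]
      rfl
    rw [h1]
    rcases a with i | i
    · exact he i
    · rw [add_comm]
      exact he i
  have hneg : ∀ s : Finset β, wP P (s.map t.toEmbedding) = -wP P s := by
    intro s
    rw [eq_neg_iff_add_eq_zero, wP, wP, Finset.sum_map, ← QuotientAddGroup.mk_add,
      QuotientAddGroup.eq_zero_iff, ← Finset.sum_add_distrib]
    refine AddSubgroup.sum_mem _ fun l _ => ?_
    rw [add_comm]
    exact ht l
  have hbij : Function.Bijective fun s : Finset β => s.map t.toEmbedding :=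
    (Equiv.finsetCongr t).bijective
  obtain ⟨κ, hκ, h⟩ := lcl' (wP P) hbij hneg (i₀ := ∅) (by rw [wP, Finset.sum_empty]; rfl)
  refine ⟨κ, hκ, h.congr fun n => ?_⟩
  have hcard : Fintype.card β = 2 * g := by
    rw [← Fintype.card_congr e, Fintype.card_sum, Fintype.card_fin]
    ring
  have hfr : Module.finrank ℤ (AddSubgroup.closure (range (wP P))) =
      Module.finrank ℤ ((β → ℤ) ⧸ P) := by
    rw [closure_wP]
    exact (AddSubgroup.topEquiv (G := (β → ℤ) ⧸ P)).toIntLinearEquiv.finrank_eq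
  rw [pN_eq, hfr, Fintype.card_finset, hcard]
  congr 1
  push_cast
  rw [← pow_mul, show (4 : ℝ) = 2 ^ 2 by norm_num, ← pow_mul, mul_assoc]

end Pool.Agent.L7h85.GR
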